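import Mathlib

/-!
# One CM field, its embeddings and the Galois group of its Galois closure

`E` is a CM field (a number field which is a totally complex quadratic extension of its maximal real
subfield). The automorphisms of the field of algebraic numbers act on the embeddings of `E` in this
field through a finite group of permutations, the Galois group of the Galois closure of `E`.
-/

set_option autoImplicit false
set_option linter.unusedSectionVars false

namespace Pool.Agent.Lib.MP_938ce2_ag_nf.One

open NumberField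

section defs

variable (E : Type) [Field E] [NumberField E]

/-- The embeddings of the number field `E` in the field of algebraic numbers. -/
abbrev Emb : Type := E →+* AlgebraicClosure ℚ

/-- The permutation of the embeddings given by an automorphism of the field of algebraic numbers. -/
noncomputable def galPerm : RingAut (AlgebraicClosure ℚ) →* Equiv.Perm (Emb E) where
  toFun σ :=
    { toFun := fun φ => (σ : AlgebraicClosure ℚ →+* AlgebraicClosure ℚ).comp φ
      invFun := fun φ => (σ⁻¹ : RingAut (AlgebraicClosure ℚ)).toRingHom.comp φ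
      left_inv := fun φ => RingHom.ext fun y => RingEquiv.symm_apply_apply σ (φ y)
      right_inv := fun φ => RingHom.ext fun y => RingEquiv.apply_symm_apply σ (φ y) }
  map_one' := Equiv.ext fun _ => rfl
  map_mul' _ _ := Equiv.ext fun _ => rfl

/-- The Galois group of the Galois closure of `E`, as a group of permutations of the embeddings. -/
noncomputable def galGroup : Subgroup (Equiv.Perm (Emb E)) := (galPerm E).range

variable [IsCMField E]

/-- The embedding conjugate to `φ`, its composition with the complex conjugation of the CM field. -/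
noncomputable def conjEmb (φ : Emb E) : Emb E :=
  φ.comp (IsCMField.complexConj E : E →+* E)

/-- A CM type: it contains exactly one embedding of every pair of conjugate embeddings. -/
def IsCMType (Φ : Finset (Emb E)) : Prop := ∀ φ, φ ∈ Φ ↔ conjEmb E φ ∉ Φ

end defs

section facts

variable (E : Type) [Field E] [NumberField E]

noncomputable instance instFintypeGal : Fintype (galGroup E) := Fintype.ofFinite _

lemma galPerm_apply (σ : RingAut (AlgebraicClosure ℚ)) (φ : Emb E) :
    galPerm E σ φ = (σ : AlgebraicClosure ℚ →+* AlgebraicClosure ℚ).comp φ := rfl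

lemma smul_def (γ : galGroup E) (φ : Emb E) : γ • φ = (γ : Equiv.Perm (Emb E)) φ := rfl

lemma normal_rat : @Normal ℚ (AlgebraicClosure ℚ) _ _ DivisionRing.toRatAlgebra := by
  have h : (DivisionRing.toRatAlgebra : Algebra ℚ (AlgebraicClosure ℚ)) = AlgebraicClosure.instAlgebra ℚ :=
    Subsingleton.elim _ _
  rw [h]
  infer_instance

/-- the action of the Galois group on the embeddings is transitive -/
lemma exists_smul_eq (φ ψ : Emb E) : ∃ γ : galGroup E, γ • φ = ψ := by
  have hn := normal_rat
  let φ' : E →ₐ[ℚ] AlgebraicClosure ℚ := φ.toRatAlgHom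
  let ψ' : E →ₐ[ℚ] AlgebraicClosure ℚ := ψ.toRatAlgHom
  let χ : φ'.fieldRange ≃ₐ[ℚ] ψ'.fieldRange :=
    (AlgEquiv.ofInjectiveField φ').symm.trans (AlgEquiv.ofInjectiveField ψ')
  let σ : AlgebraicClosure ℚ ≃ₐ[ℚ] AlgebraicClosure ℚ := χ.liftNormal (AlgebraicClosure ℚ)
  refine ⟨⟨galPerm E σ.toRingEquiv, ⟨σ.toRingEquiv, rfl⟩⟩, ?_⟩
  rw [smul_def]
  change galPerm E σ.toRingEquiv φ = _
  rw [galPerm_apply]
  refine RingHom.ext fun y => ?_
  have h1 := χ.liftNormal_commutes (AlgebraicClosure ℚ) (AlgEquiv.ofInjectiveField φ' y)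
  have h2 : ∀ z : E, χ (AlgEquiv.ofInjectiveField φ' z) = AlgEquiv.ofInjectiveField ψ' z := by
    intro z
    change (AlgEquiv.ofInjectiveField ψ')
      ((AlgEquiv.ofInjectiveField φ').symm (AlgEquiv.ofInjectiveField φ' z)) = _
    rw [AlgEquiv.symm_apply_apply]
  rw [h2] at h1
  exact h1

instance instTransitive : MulAction.IsPretransitive (galGroup E) (Emb E) := ⟨exists_smul_eq E⟩

lemma card_emb : Fintype.card (Emb E) = Module.finrank ℚ E :=
  Embeddings.card E (AlgebraicClosure ℚ)

variable [IsCMField E]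

/-- complex conjugation is induced by an element of the Galois group -/
lemma exists_conj : ∃ c : galGroup E, ∀ φ : Emb E, c • φ = conjEmb E φ := by
  have hn := normal_rat
  have halg : @Algebra.IsAlgebraic ℚ (AlgebraicClosure ℚ) _ _ DivisionRing.toRatAlgebra :=
    hn.toIsAlgebraic
  let ι₀ : AlgebraicClosure ℚ →ₐ[ℚ] ℂ := IsAlgClosed.lift
  let _ : Algebra (AlgebraicClosure ℚ) ℂ := ι₀.toRingHom.toAlgebra
  have _ : IsScalarTower ℚ (AlgebraicClosure ℚ) ℂ := IsScalarTower.of_algebraMap_eq fun q =>
    (ι₀.commutes q).symm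
  let χ : ℂ ≃ₐ[ℚ] ℂ := Complex.conjAe.restrictScalars ℚ
  let σ : AlgebraicClosure ℚ ≃ₐ[ℚ] AlgebraicClosure ℚ := χ.restrictNormal (AlgebraicClosure ℚ)
  refine ⟨⟨galPerm E σ.toRingEquiv, ⟨σ.toRingEquiv, rfl⟩⟩, fun φ => ?_⟩
  rw [smul_def]
  change galPerm E σ.toRingEquiv φ = _
  rw [galPerm_apply]
  refine RingHom.ext fun y => ?_
  have h1 : ι₀ (σ (φ y)) = (starRingEnd ℂ) (ι₀ (φ y)) :=
    χ.restrictNormal_commutes (AlgebraicClosure ℚ) (φ y)
  have h3 : ι₀ (φ (IsCMField.complexConj E y)) = (starRingEnd ℂ) (ι₀ (φ y)) :=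
    IsCMField.complexEmbedding_complexConj E (ι₀.toRingHom.comp φ) y
  have h4 : ι₀ (σ (φ y)) = ι₀ (φ (IsCMField.complexConj E y)) := h1.trans h3.symm
  exact ι₀.injective h4

lemma conj_conj (φ : Emb E) : conjEmb E (conjEmb E φ) = φ := by
  refine RingHom.ext fun y => ?_
  change φ (IsCMField.complexConj E (IsCMField.complexConj E y)) = φ y
  rw [IsCMField.complexConj_apply_apply]

lemma conj_ne (φ : Emb E) : conjEmb E φ ≠ φ := by
  intro h1
  apply IsCMField.complexConj_ne_one E
  ext y
  have h3 : φ (IsCMField.complexConj E y) = φ y := congrArg (fun f : Emb E => f y) h1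
  exact φ.injective h3

lemma conj_smul (γ : galGroup E) (φ : Emb E) : conjEmb E (γ • φ) = γ • conjEmb E φ := by
  obtain ⟨_, σ, rfl⟩ := γ
  rfl

/-- the data of complex conjugation, in the form used by the combinatorial theorems -/
theorem conj_data : ∃ c : galGroup E, (∀ φ : Emb E, c • φ = conjEmb E φ) ∧
    (∀ γ : galGroup E, c * γ = γ * c) ∧ c * c = 1 ∧ (∀ φ : Emb E, c • φ ≠ φ) := by
  obtain ⟨c, hc⟩ := exists_conj E
  have hext : ∀ a b : galGroup E, (∀ φ : Emb E, a • φ = b • φ) → a = b := by
    intro a b h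
    apply Subtype.ext
    apply Equiv.ext
    exact h
  refine ⟨c, hc, fun γ => hext _ _ fun φ => ?_, hext _ _ fun φ => ?_, fun φ => ?_⟩
  · rw [mul_smul, mul_smul, hc, hc, conj_smul]
  · rw [mul_smul, hc, hc, conj_conj, one_smul]
  · rw [hc]; exact conj_ne E φ

end facts

end Pool.Agent.Lib.MP_938ce2_ag_nf.One
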