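import Mathlib

/-!
# CM fields, their embeddings and the Galois group of the Galois closure

`E i` is a finite family of CM fields (number fields which are totally complex quadratic extensions
of their maximal real subfields). The absolute Galois group acts on the embeddings of the `E i` in the
field of algebraic numbers through a finite group of permutations, the Galois group of the Galois
closure of the product of the `E i`.
-/

set_option autoImplicit false
set_option linter.unusedSectionVars false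

namespace Pool.Agent.Lib.MP_938ce2_ag_nf

open NumberField

section defs

variable {ι : Type} (E : ι → Type) [∀ i, Field (E i)] [∀ i, NumberField (E i)]

/-- The embeddings of the number fields `E i` in the field of algebraic numbers. -/
abbrev Emb : Type := (i : ι) × (E i →+* AlgebraicClosure ℚ)

/-- The permutation of the embeddings given by an automorphism of the field of algebraic numbers. -/
noncomputable def galPerm : RingAut (AlgebraicClosure ℚ) →* Equiv.Perm (Emb E) where
  toFun σ :=
    { toFun := fun x => ⟨x.1, (σ : AlgebraicClosure ℚ →+* AlgebraicClosure ℚ).comp x.2⟩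
      invFun := fun x => ⟨x.1, (σ⁻¹ : RingAut (AlgebraicClosure ℚ)).toRingHom.comp x.2⟩
      left_inv := fun x => Sigma.ext rfl (heq_of_eq
        (RingHom.ext fun y => RingEquiv.symm_apply_apply σ (x.2 y)))
      right_inv := fun x => Sigma.ext rfl (heq_of_eq
        (RingHom.ext fun y => RingEquiv.apply_symm_apply σ (x.2 y))) }
  map_one' := Equiv.ext fun _ => rfl
  map_mul' _ _ := Equiv.ext fun _ => rfl

/-- The Galois group of the Galois closure of the product of the `E i`, as a group of permutations of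
the embeddings. -/
noncomputable def galGroup : Subgroup (Equiv.Perm (Emb E)) := (galPerm E).range

variable [∀ i, IsCMField (E i)]

/-- The embedding conjugate to `x`, its composition with the complex conjugation of the CM field. -/
noncomputable def conjEmb (x : Emb E) : Emb E :=
  ⟨x.1, x.2.comp (IsCMField.complexConj (E x.1) : E x.1 →+* E x.1)⟩

/-- A CM type: it contains exactly one embedding of every pair of conjugate embeddings. -/
def IsCMType (Φ : Finset (Emb E)) : Prop := ∀ x, x ∈ Φ ↔ conjEmb E x ∉ Φ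

end defs

section facts

variable {ι : Type} (E : ι → Type) [∀ i, Field (E i)] [∀ i, NumberField (E i)]

noncomputable instance instFintypeGal [Finite ι] : Fintype (galGroup E) := Fintype.ofFinite _

lemma galPerm_apply (σ : RingAut (AlgebraicClosure ℚ)) (x : Emb E) :
    galPerm E σ x = ⟨x.1, (σ : AlgebraicClosure ℚ →+* AlgebraicClosure ℚ).comp x.2⟩ := rfl

lemma smul_def (γ : galGroup E) (x : Emb E) : γ • x = (γ : Equiv.Perm (Emb E)) x := rfl

lemma normal_rat : @Normal ℚ (AlgebraicClosure ℚ) _ _ DivisionRing.toRatAlgebra := by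
  have h : (DivisionRing.toRatAlgebra : Algebra ℚ (AlgebraicClosure ℚ)) = AlgebraicClosure.instAlgebra ℚ :=
    Subsingleton.elim _ _
  rw [h]
  infer_instance

/-- the action of the Galois group is transitive on the embeddings of one field -/
lemma exists_smul_eq (i : ι) (φ ψ : E i →+* AlgebraicClosure ℚ) :
    ∃ γ : galGroup E, γ • (⟨i, φ⟩ : Emb E) = ⟨i, ψ⟩ := by
  have hn := normal_rat
  let φ' : E i →ₐ[ℚ] AlgebraicClosure ℚ := φ.toRatAlgHom
  let ψ' : E i →ₐ[ℚ] AlgebraicClosure ℚ := ψ.toRatAlgHom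
  let χ : φ'.fieldRange ≃ₐ[ℚ] ψ'.fieldRange :=
    (AlgEquiv.ofInjectiveField φ').symm.trans (AlgEquiv.ofInjectiveField ψ')
  let σ : AlgebraicClosure ℚ ≃ₐ[ℚ] AlgebraicClosure ℚ := χ.liftNormal (AlgebraicClosure ℚ)
  refine ⟨⟨galPerm E σ.toRingEquiv, ⟨σ.toRingEquiv, rfl⟩⟩, ?_⟩
  rw [smul_def]
  change galPerm E σ.toRingEquiv ⟨i, φ⟩ = _
  rw [galPerm_apply]
  refine Sigma.ext rfl (heq_of_eq (RingHom.ext fun y => ?_))
  have h1 := χ.liftNormal_commutes (AlgebraicClosure ℚ) (AlgEquiv.ofInjectiveField φ' y)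
  have h2 : ∀ z : E i, χ (AlgEquiv.ofInjectiveField φ' z) = AlgEquiv.ofInjectiveField ψ' z := by
    intro z
    change (AlgEquiv.ofInjectiveField ψ')
      ((AlgEquiv.ofInjectiveField φ').symm (AlgEquiv.ofInjectiveField φ' z)) = _
    rw [AlgEquiv.symm_apply_apply]
  rw [h2] at h1
  exact h1

/-- the orbits of the Galois group are the sets of embeddings of the factors -/
lemma orbit_eq (x : Emb E) : MulAction.orbit (galGroup E) x = {y | y.1 = x.1} := by
  ext y
  constructor
  · rintro ⟨⟨_, σ, rfl⟩, rfl⟩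
    rfl
  · intro h
    obtain ⟨i, φ⟩ := x
    obtain ⟨j, ψ⟩ := y
    have hj : j = i := h
    subst hj
    obtain ⟨γ, hγ⟩ := exists_smul_eq E j φ ψ
    exact ⟨γ, hγ⟩

lemma ncard_orbit (x : Emb E) :
    (MulAction.orbit (galGroup E) x).ncard = Module.finrank ℚ (E x.1) := by
  rw [orbit_eq, ← Embeddings.card (E x.1) (AlgebraicClosure ℚ), ← Nat.card_eq_fintype_card,
    ← Nat.card_coe_set_eq]
  obtain ⟨i, φ⟩ := x
  refine Nat.card_congr (Equiv.ofBijective
    (fun ψ : E i →+* AlgebraicClosure ℚ => (⟨⟨i, ψ⟩, rfl⟩ : {y : Emb E | y.1 = i})) ⟨?_, ?_⟩).symm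
  · intro ψ ψ' h
    have h1 := congrArg Subtype.val h
    exact eq_of_heq (Sigma.mk.inj_iff.mp h1).2
  · rintro ⟨⟨j, ψ⟩, hj⟩
    have hj' : j = i := hj
    subst hj'
    exact ⟨ψ, rfl⟩

lemma card_emb [Fintype ι] : Fintype.card (Emb E) = ∑ i, Module.finrank ℚ (E i) := by
  rw [Fintype.card_sigma]
  exact Finset.sum_congr rfl fun i _ => Embeddings.card (E i) (AlgebraicClosure ℚ)

variable [∀ i, IsCMField (E i)]

/-- complex conjugation is induced by an element of the Galois group -/
lemma exists_conj : ∃ c : galGroup E, ∀ x : Emb E, c • x = conjEmb E x := by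
  have hn := normal_rat
  have halg : @Algebra.IsAlgebraic ℚ (AlgebraicClosure ℚ) _ _ DivisionRing.toRatAlgebra :=
    hn.toIsAlgebraic
  let ι₀ : AlgebraicClosure ℚ →ₐ[ℚ] ℂ := IsAlgClosed.lift
  let _ : Algebra (AlgebraicClosure ℚ) ℂ := ι₀.toRingHom.toAlgebra
  have _ : IsScalarTower ℚ (AlgebraicClosure ℚ) ℂ := IsScalarTower.of_algebraMap_eq fun q =>
    (ι₀.commutes q).symm
  let χ : ℂ ≃ₐ[ℚ] ℂ := Complex.conjAe.restrictScalars ℚ
  let σ : AlgebraicClosure ℚ ≃ₐ[ℚ] AlgebraicClosure ℚ := χ.restrictNormal (AlgebraicClosure ℚ)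
  refine ⟨⟨galPerm E σ.toRingEquiv, ⟨σ.toRingEquiv, rfl⟩⟩, fun x => ?_⟩
  rw [smul_def]
  change galPerm E σ.toRingEquiv x = _
  rw [galPerm_apply]
  refine Sigma.ext rfl (heq_of_eq (RingHom.ext fun y => ?_))
  have h1 : ι₀ (σ (x.2 y)) = (starRingEnd ℂ) (ι₀ (x.2 y)) :=
    χ.restrictNormal_commutes (AlgebraicClosure ℚ) (x.2 y)
  have h3 : ι₀ (x.2 (IsCMField.complexConj (E x.1) y)) = (starRingEnd ℂ) (ι₀ (x.2 y)) :=
    IsCMField.complexEmbedding_complexConj (E x.1) (ι₀.toRingHom.comp x.2) y
  have h4 : ι₀ (σ (x.2 y)) = ι₀ (x.2 (IsCMField.complexConj (E x.1) y)) := h1.trans h3.symm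
  exact ι₀.injective h4

lemma conj_conj (x : Emb E) : conjEmb E (conjEmb E x) = x := by
  refine Sigma.ext rfl (heq_of_eq (RingHom.ext fun y => ?_))
  change x.2 (IsCMField.complexConj (E x.1) (IsCMField.complexConj (E x.1) y)) = x.2 y
  rw [IsCMField.complexConj_apply_apply]

lemma conj_ne (x : Emb E) : conjEmb E x ≠ x := by
  intro h
  obtain ⟨i, φ⟩ := x
  have h1 : φ.comp (IsCMField.complexConj (E i) : E i →+* E i) = φ :=
    eq_of_heq (Sigma.mk.inj_iff.mp h).2
  apply IsCMField.complexConj_ne_one (E i)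
  ext y
  have h3 : φ (IsCMField.complexConj (E i) y) = φ y := congrArg (fun f : E i →+* AlgebraicClosure ℚ => f y) h1
  exact φ.injective h3

lemma conj_smul (γ : galGroup E) (x : Emb E) : conjEmb E (γ • x) = γ • conjEmb E x := by
  obtain ⟨_, σ, rfl⟩ := γ
  rfl

/-- the data of complex conjugation, in the form used by the combinatorial theorems -/
theorem conj_data : ∃ c : galGroup E, (∀ x : Emb E, c • x = conjEmb E x) ∧
    (∀ γ : galGroup E, c * γ = γ * c) ∧ c * c = 1 ∧ (∀ x : Emb E, c • x ≠ x) := by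
  obtain ⟨c, hc⟩ := exists_conj E
  have hext : ∀ a b : galGroup E, (∀ x : Emb E, a • x = b • x) → a = b := by
    intro a b h
    apply Subtype.ext
    apply Equiv.ext
    exact h
  refine ⟨c, hc, fun γ => hext _ _ fun x => ?_, hext _ _ fun x => ?_, fun x => ?_⟩
  · rw [mul_smul, mul_smul, hc, hc, conj_smul]
  · rw [mul_smul, hc, hc, conj_conj, one_smul]
  · rw [hc]; exact conj_ne E x

end facts

end Pool.Agent.Lib.MP_938ce2_ag_nf
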